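import Pool.Agent.H756.SB.Stm
import Pool.Agent.R972.OP.La

/-!
# Project SB (helper756), package LAT (helper399): the lattice inequality for signed placements

Adapted from `Pool.Agent.R928.OPLat`.
-/

set_option autoImplicit false

namespace Pool.Agent.U399.SB

open Pool.Agent.H756.SB

namespace Lat

lemma rf_rf (N k : ℕ) (hk : k < N) (x : ℕ) : rf N k (k + 1) (rf N k (k + 1) x) = x := by
  unfold rf
  split_ifs <;> omega

lemma mvs_mvs {n : ℕ} (N k : ℕ) (hk : k < N) (g : Fin n → ℕ) :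
    mvs N k (k + 1) (mvs N k (k + 1) g) = g := by
  funext a
  exact rf_rf N k hk (g a)

open Classical in
/-- the weights -/
noncomputable def w {n : ℕ} (N : ℕ) (S : Fin n × Bool → Fin n × Bool → Prop) (c : ℕ → ℝ)
    (x y : {g // g ∈ cfs N S}) : ℝ :=
  ∑ k ∈ Finset.range N, if mvs N k (k + 1) x.1 = y.1 then c k else 0

lemma w_symm {n : ℕ} (N : ℕ) (S : Fin n × Bool → Fin n × Bool → Prop) (c : ℕ → ℝ)
    (x y : {g // g ∈ cfs N S}) : w N S c x y = w N S c y x := by
  unfold w
  refine Finset.sum_congr rfl fun k hk => ?_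
  have hk' : k < N := Finset.mem_range.mp hk
  have : mvs N k (k + 1) x.1 = y.1 ↔ mvs N k (k + 1) y.1 = x.1 := by
    constructor
    · intro h; rw [← h, mvs_mvs N k hk']
    · intro h; rw [← h, mvs_mvs N k hk']
  simp only [this]

open Classical in
lemma sum_w {n : ℕ} (N : ℕ) (S : Fin n × Bool → Fin n × Bool → Prop) (c : ℕ → ℝ)
    (x : {g // g ∈ cfs N S}) (φ : (Fin n → ℕ) → ℝ) :
    ∑ y : {g // g ∈ cfs N S}, w N S c x y * φ y.1 =
      ∑ k ∈ Finset.range N,
        if mvs N k (k + 1) x.1 ∈ cfs N S then c k * φ (mvs N k (k + 1) x.1) else 0 := by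
  unfold w
  simp_rw [Finset.sum_mul]
  rw [Finset.sum_comm]
  refine Finset.sum_congr rfl fun k _ => ?_
  split_ifs with h
  · rw [Finset.sum_eq_single ⟨mvs N k (k + 1) x.1, h⟩]
    · simp
    · intro y _ hy
      rw [if_neg, zero_mul]
      intro he
      exact hy (Subtype.ext he.symm)
    · intro hn
      exact absurd (Finset.mem_univ _) hn
  · apply Finset.sum_eq_zero
    intro y _
    rw [if_neg, zero_mul]
    intro he
    rw [he] at h
    exact h y.2

end Lat

open Classical in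
theorem t_LAT : S_CON → S_CONN → S_LAT := by
  intro h1 h2 n N S W c hWC F
  have key := Pool.Agent.R972.OP.la {g // g ∈ cfs N S} (Lat.w N S c) (Lat.w_symm N S c) ?_
    (fun x => F x.1)
  · rw [Fintype.card_coe] at key
    have e1 : ∑ x : {g // g ∈ cfs N S}, F x.1 ^ 2 = ∑ g ∈ cfs N S, F g ^ 2 :=
      Finset.sum_coe_sort (cfs N S) (fun g => F g ^ 2)
    have e2 : ∑ x : {g // g ∈ cfs N S}, F x.1 = ∑ g ∈ cfs N S, F g :=
      Finset.sum_coe_sort (cfs N S) F
    have e3 : ∑ x : {g // g ∈ cfs N S}, ∑ y : {g // g ∈ cfs N S},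
        Lat.w N S c x y * (F y.1 - F x.1) ^ 2 = ∑ g ∈ cfs N S, QQs N S c F g := by
      rw [← Finset.sum_coe_sort (cfs N S) (fun g => QQs N S c F g)]
      refine Finset.sum_congr rfl fun x _ => ?_
      rw [Lat.sum_w N S c x (fun g => (F g - F x.1) ^ 2)]
      rfl
    rw [e1, e2, e3] at key
    exact key
  · intro lam G hG hne
    set G' : (Fin n → ℕ) → ℝ := fun g => if h : g ∈ cfs N S then G ⟨g, h⟩ else 0 with hG'
    have hGG : ∀ x : {g // g ∈ cfs N S}, G' x.1 = G x := by
      intro x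
      rw [hG']
      simp
    apply h1 n N S W c lam G' hWC
    · intro g hg
      have e4 := hG ⟨g, hg⟩
      have e5 : ∑ y : {g // g ∈ cfs N S}, Lat.w N S c ⟨g, hg⟩ y * (G y - G ⟨g, hg⟩) =
          ∑ y : {g // g ∈ cfs N S}, Lat.w N S c ⟨g, hg⟩ y * (G' y.1 - G' g) := by
        refine Finset.sum_congr rfl fun y _ => ?_
        rw [hGG y, hGG ⟨g, hg⟩]
      rw [e5, Lat.sum_w N S c ⟨g, hg⟩ (fun h => G' h - G' g), ← hGG ⟨g, hg⟩] at e4
      exact e4
    · by_contra hcon
      push Not at hcon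
      obtain ⟨x, y, hxy⟩ := hne
      apply hxy
      rw [← hGG x, ← hGG y]
      exact h2 n N S G' (fun g hg k hk hmem => hcon g hg k hk hmem) x.1 x.2 y.1 y.2

end Pool.Agent.U399.SB
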